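import Pool.Agent.helper34.NTA.Spec

/-! Row nta:CNT -/

set_option autoImplicit false

namespace Pool.Agent.NTA

open Equiv

/-- a sum over `T` is the sum over the cycles of the sums over the cycles -/
theorem CNT_sum {T : Type} [Fintype T] [DecidableEq T] (τ : Perm T)
    [Fintype (Quotient (Perm.SameCycle.setoid τ))] [DecidableEq (Quotient (Perm.SameCycle.setoid τ))] (f : T → ℕ) :
    ∑ e, f e = ∑ q : Quotient (Perm.SameCycle.setoid τ),
      ∑ i ∈ Finset.range (Function.minimalPeriod τ q.out), f ((τ ^ i) q.out) := by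
  rw [← Finset.sum_fiberwise Finset.univ (fun e => (⟦e⟧ : Quotient (Perm.SameCycle.setoid τ))) f]
  refine Finset.sum_congr rfl fun q _ => ?_
  have h1 : (Finset.univ.filter fun e => (⟦e⟧ : Quotient (Perm.SameCycle.setoid τ)) = q) =
      (Finset.range (Function.minimalPeriod τ q.out)).image (fun i => (τ ^ i) q.out) := by
    ext e
    simp only [Finset.mem_filter, Finset.mem_univ, true_and, Finset.mem_image, Finset.mem_range]
    constructor
    · intro h
      have h2 : (⟦q.out⟧ : Quotient (Perm.SameCycle.setoid τ)) = ⟦e⟧ := by rw [Quotient.out_eq, h]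
      have h3 : τ.SameCycle q.out e := Quotient.exact h2
      obtain ⟨n, hn⟩ := h3.exists_nat_pow_eq
      refine ⟨n % Function.minimalPeriod τ q.out, Nat.mod_lt _ ?_, ?_⟩
      · exact Function.minimalPeriod_pos_of_mem_periodicPts
          (Function.mem_periodicPts.2 ⟨orderOf τ, orderOf_pos τ, by
            change τ^[orderOf τ] q.out = q.out
            rw [← Perm.coe_pow, pow_orderOf_eq_one]
            rfl⟩)
      · rw [Perm.coe_pow, Function.iterate_mod_minimalPeriod_eq, ← Perm.coe_pow, hn]
    · rintro ⟨i, -, rfl⟩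
      rw [← Quotient.out_eq q]
      refine Quotient.sound ?_
      change τ.SameCycle ((τ ^ i) (⟦q.out⟧ : Quotient (Perm.SameCycle.setoid τ)).out) q.out
      rw [Quotient.out_eq]
      exact (Perm.SameCycle.refl τ q.out).pow_left
  rw [h1, Finset.sum_image]
  intro i hi j hj hij
  have hi' : i < Function.minimalPeriod τ q.out := Finset.mem_range.1 hi
  have hj' : j < Function.minimalPeriod τ q.out := Finset.mem_range.1 hj
  exact Function.iterate_injOn_Iio_minimalPeriod hi' hj' hij

theorem CNT_wt : ∀ c : ZMod 10, wt c + wt (c + 1) = 46 := by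
  unfold wt KL
  decide

theorem CNT_orig_succ {T : Type} (τ : Perm T) (lab : T → ZMod 10) (e : T) (h : Orig τ lab e) : Orig τ lab (τ e) := by
  obtain ⟨h1, h2, h3⟩ := h
  have h4 : lab (τ (τ e)) = lab e := h2 0
  refine ⟨?_, fun i => ?_, ?_⟩
  · rw [← h1]
    exact Function.minimalPeriod_apply (Function.minimalPeriod_pos_iff_mem_periodicPts.1 (by rw [h1]; norm_num))
  · have h5 := h2 (i + 1)
    rw [show i + 1 + 2 = (i + 2) + 1 by ring, pow_succ τ (i + 2), pow_succ τ i] at h5
    exact h5
  · rw [h4]
    exact h3.symm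

theorem CNT_orig_pow {T : Type} (τ : Perm T) (lab : T → ZMod 10) (e : T) (h : Orig τ lab e) (i : ℕ) :
    Orig τ lab ((τ ^ i) e) := by
  induction i with
  | zero => exact h
  | succ i ih =>
    rw [pow_succ']
    exact CNT_orig_succ τ lab _ ih

theorem CNT_eight {T : Type} (τ : Perm T) (lab : T → ZMod 10) (e : T) (h : Orig τ lab e) : (τ ^ 8) e = e := by
  have h1 := Function.isPeriodicPt_minimalPeriod τ e
  rw [h.1] at h1
  exact h1

theorem CNT_inv {T : Type} (τ : Perm T) (lab : T → ZMod 10) (e : T) (h : Orig τ lab e) : lab (τ⁻¹ e) = lab (τ e) := by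
  have h8 := CNT_eight τ lab e h
  have h1 : τ⁻¹ e = (τ ^ 7) e := by
    rw [Perm.inv_eq_iff_eq]
    change e = (τ * τ ^ 7) e
    rw [← pow_succ' τ 7]
    exact h8.symm
  rw [h1]
  have h2 := h.2.1
  have a1 := h2 5
  have a2 := h2 3
  have a3 := h2 1
  rw [show 5 + 2 = 7 by norm_num] at a1
  rw [show 3 + 2 = 5 by norm_num] at a2
  rw [show 1 + 2 = 3 by norm_num] at a3
  rw [a1, a2, a3, pow_one]

theorem CNT_orig_iff {T : Type} (τ : Perm T) (lab : T → ZMod 10) (e : T) (i : ℕ) (hfin : ∃ m, 0 < m ∧ (τ ^ m) e = e) :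
    Orig τ lab ((τ ^ i) e) ↔ Orig τ lab e := by
  refine ⟨fun h => ?_, fun h => CNT_orig_pow τ lab e h i⟩
  obtain ⟨m, hm, hme⟩ := hfin
  have hk : ∀ k : ℕ, (τ ^ (m * k)) e = e := by
    intro k
    induction k with
    | zero => simp
    | succ k ih =>
      rw [Nat.mul_succ, pow_add, Perm.mul_apply, hme, ih]
  have h1 := CNT_orig_pow τ lab _ h (m * i - i)
  have h2 : (τ ^ (m * i - i)) ((τ ^ i) e) = e := by
    rw [← Perm.mul_apply, ← pow_add, Nat.sub_add_cancel (Nat.le_mul_of_pos_left i hm), hk]
  rwa [h2] at h1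

theorem CNT_sum8 {T : Type} (τ : Perm T) (lab : T → ZMod 10) (e : T) (h : Orig τ lab e) :
    ∑ i ∈ Finset.range (Function.minimalPeriod τ e), wt (lab ((τ ^ i) e)) = 184 := by
  have h2 := h.2.1
  have b0 : lab ((τ ^ 0) e) = lab e := rfl
  have b1 : lab ((τ ^ 1) e) = lab (τ e) := rfl
  have b2 := h2 0
  have b3 := h2 1
  have b4 := h2 2
  have b5 := h2 3
  have b6 := h2 4
  have b7 := h2 5
  simp only [Nat.reduceAdd] at b2 b3 b4 b5 b6 b7
  rw [h.1]
  simp only [Finset.sum_range_succ, Finset.sum_range_zero]
  rw [b7, b6, b5, b4, b3, b2, b0, b1]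
  have h5 : wt (lab e) + wt (lab (τ e)) = 46 := by
    rcases h.2.2 with h3 | h3
    · rw [h3]
      exact CNT_wt _
    · rw [h3, add_comm]
      exact CNT_wt _
  omega

theorem CNT (hWRD : WRD_stmt) : CNT_stmt := by
  classical
  intro H _ _ s sg hG T _ τ hv lab X habs hK hR hX hXR hU hM h10
  have : Fintype T := Fintype.ofFinite T
  have : Fintype H := Fintype.ofFinite H
  have : Fintype (Quotient (Perm.SameCycle.setoid τ)) := Fintype.ofFinite _
  have hfin : ∀ e : T, ∃ m, 0 < m ∧ (τ ^ m) e = e := fun e => ⟨orderOf τ, orderOf_pos τ, by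
    rw [pow_orderOf_eq_one]
    rfl⟩
  set n := Nat.card H with hn
  have hn1 : 1 ≤ n := Nat.card_pos
  set Q := Quotient (Perm.SameCycle.setoid τ) with hQ
  have hcyc : cyc τ = Fintype.card Q := Nat.card_eq_fintype_card
  -- the sum of the weights
  have e1 : ∑ e, wt (lab e) = 45 * Nat.card {e : T // KL (lab e)} + Nat.card {e : T // ¬ KL (lab e)} := by
    rw [Nat.card_eq_fintype_card, Nat.card_eq_fintype_card, Fintype.card_subtype, Fintype.card_subtype]
    unfold wt
    rw [Finset.sum_ite, Finset.sum_const, Finset.sum_const]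
    simp only [smul_eq_mul, mul_one]
    ring
  -- the number of the original cycles
  set a := (Finset.univ.filter fun q : Q => Orig τ lab q.out).card with ha
  set b := (Finset.univ.filter fun q : Q => ¬ Orig τ lab q.out).card with hb
  have hab : a + b = cyc τ := by
    rw [hcyc, ha, hb, Finset.card_filter_add_card_filter_not, Finset.card_univ]
  have e2 : 184 * a + 225 * b ≤ ∑ e, wt (lab e) := by
    rw [CNT_sum τ]
    calc 184 * a + 225 * b = ∑ q : Q, (if Orig τ lab q.out then 184 else 225) := by
          rw [Finset.sum_ite, Finset.sum_const, Finset.sum_const, ← ha, ← hb]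
          simp only [smul_eq_mul]
          ring
      _ ≤ _ := by
          refine Finset.sum_le_sum fun q _ => ?_
          split_ifs with h
          · exact (CNT_sum8 τ lab _ h).ge
          · exact (hWRD H s sg hG T τ hv lab habs q.out).resolve_left h
  have e3 : (Finset.univ.filter fun e => Orig τ lab e).card = 8 * a := by
    rw [Finset.card_filter, CNT_sum τ]
    calc _ = ∑ q : Q, (if Orig τ lab q.out then 8 else 0) := by
          refine Finset.sum_congr rfl fun q _ => ?_
          split_ifs with h
          · rw [h.1]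
            calc _ = ∑ i ∈ Finset.range 8, 1 := Finset.sum_congr rfl fun i _ => by
                  rw [if_pos (CNT_orig_pow τ lab _ h i)]
              _ = 8 := by simp
          · refine Finset.sum_eq_zero fun i _ => ?_
            rw [if_neg]
            rw [CNT_orig_iff τ lab _ i (hfin _)]
            exact h
      _ = 8 * a := by
          rw [Finset.sum_ite, Finset.sum_const, Finset.sum_const, ← ha]
          simp only [smul_eq_mul]
          ring
  -- the corners
  have hc : ∀ e, Orig τ lab e → ∃ c, Cor τ lab e c := by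
    intro e he
    have h1 := CNT_inv τ lab e he
    rcases he.2.2 with h2 | h2
    · exact ⟨lab e, Or.inr ⟨by rw [h1, h2], rfl⟩⟩
    · exact ⟨lab (τ e), Or.inl ⟨h1, h2⟩⟩
  let cc : T → ZMod 10 := fun e => if h : Orig τ lab e then (hc e h).choose else 0
  have hcc : ∀ e, Orig τ lab e → Cor τ lab e (cc e) := by
    intro e he
    have : cc e = (hc e he).choose := dif_pos he
    rw [this]
    exact (hc e he).choose_spec
  set O := Finset.univ.filter fun e => Orig τ lab e with hO
  let im : Finset (H × ZMod 10) := O.image fun e => (hv e, cc e)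
  have him : im.card = 8 * a := by
    rw [← e3]
    refine Finset.card_image_of_injOn ?_
    intro e he e' he' h
    have he1 : Orig τ lab e := (Finset.mem_filter.1 he).2
    have he2 : Orig τ lab e' := (Finset.mem_filter.1 he').2
    have h' : (hv e, cc e) = (hv e', cc e') := h
    rw [Prod.mk.injEq] at h'
    refine hU e e' he1 he2 h'.1 (cc e) (hcc e he1) ?_
    rw [h'.2]
    exact hcc e' he2
  have hcard : Fintype.card (H × ZMod 10) = 10 * n := by
    rw [Fintype.card_prod, hn, Nat.card_eq_fintype_card, ZMod.card]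
    ring
  have ht : imᶜ.card + 8 * a = 10 * n := by
    rw [← him, ← hcard, add_comm]
    exact Finset.card_add_card_compl im
  -- the crossings
  let mc : H × ZMod 10 → ZMod 10 := fun x => if h : x ∈ X then (hM x h).choose else 0
  have hmc : ∀ x ∈ X, ∀ e, Orig τ lab e → hv e = x.1 → ¬ Cor τ lab e (mc x) := by
    intro x hx
    have : mc x = (hM x hx).choose := dif_pos hx
    rw [this]
    exact (hM x hx).choose_spec
  have hXc : X.ncard ≤ 5 * imᶜ.card := by
    rw [Set.ncard_eq_toFinset_card' X]
    have h1 : (X.toFinset.image fun x => (x.1, mc x)) ⊆ imᶜ := by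
      intro y hy
      obtain ⟨x, hx, rfl⟩ := Finset.mem_image.1 hy
      rw [Finset.mem_compl]
      intro h2
      obtain ⟨e, he, hxe⟩ := Finset.mem_image.1 h2
      rw [Prod.mk.injEq] at hxe
      have he1 : Orig τ lab e := (Finset.mem_filter.1 he).2
      have h3 := hmc x (Set.mem_toFinset.1 hx) e he1 hxe.1
      rw [← hxe.2] at h3
      exact h3 (hcc e he1)
    refine le_trans (Finset.card_le_mul_card_image X.toFinset 5 ?_) (Nat.mul_le_mul_left 5 (Finset.card_le_card h1))
    intro y _
    have h2 : (X.toFinset.filter fun x => (x.1, mc x) = y) ⊆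
        (Finset.univ.filter fun c : ZMod 10 => ¬ KL c).image fun c => (y.1, c) := by
      intro x hx
      rw [Finset.mem_filter] at hx
      refine Finset.mem_image.2 ⟨x.2, Finset.mem_filter.2 ⟨Finset.mem_univ _, hXR x (Set.mem_toFinset.1 hx.1)⟩, ?_⟩
      rw [← hx.2]
    refine (Finset.card_le_card h2).trans (Finset.card_image_le.trans ?_)
    have : (Finset.univ.filter fun c : ZMod 10 => ¬ KL c).card = 5 := by
      unfold KL
      decide
    exact this.le
  omega

end Pool.Agent.NTA
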